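import Pool.Agent.U79.GX.Stm
import Pool.Agent.U295.GD.KEY
import Pool.Agent.U79.MO.KEYM

/-! # Project GX (helper79), package KEY: the sum over the boxes
(after `Pool.Agent.U295.GD.KEY` of helper295 and `Pool.Agent.U79.MO.KEYM`) -/

set_option autoImplicit false
set_option linter.unusedVariables false

open scoped Classical

namespace Pool.Agent.U411.GX

open Finset
open Pool.Agent.Y703.CX (sm la jj XX)
open Pool.Agent.Y703.CQ (nr sg prs HB S_EQ ext S_BIL)
open Pool.Agent.U115.GD hiding S_BOX S_KEY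
open Pool.Agent.U79.MO (nk)
open Pool.Agent.U79.GX (Cr S_LA wt S_BOX RE KEYC S_KEY)
open Pool.Agent.U295.GD (ph ky le_XX cl_prime cl_ne hc_prod sm_la_card sm_la_prod CC mem_CC
  sm_fill la_fill ph_fill ky_fill inj_fill inj_ph CC_facts CC_disj hb_box prs_card card_sub TT
  mem_TT harm_TT)

/-- the keys which occur -/
structure KP (G : Cfg) (X z H k : ℕ) (S₀ : Finset ℕ) (J : Finset (ℕ × ℕ)) : Prop where
  cl : ∀ q ∈ S₀, Sp G q ∨ In G q
  le : ∀ q ∈ S₀, q ≤ z
  pp : Hc G ((∏ p ∈ S₀, p) * ∏ e ∈ J, e.2)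
  inj : Set.InjOn Prod.fst (J : Set (ℕ × ℕ))
  card : S₀.card + J.card ≤ k
  prod : (∏ p ∈ S₀, p) * ∏ e ∈ J, XX H e.1 ≤ X

theorem re_iff {G : Cfg} (hok : Ok G) {X z H k : ℕ} (hH : 1 ≤ H) {S : Finset ℕ}
    (hS : ∀ q ∈ S, Sp G q ∨ In G q)
    (hi : Set.InjOn (ph G H) (la z S : Set ℕ)) :
    S ∈ RE G X z H k ↔ KP G X z H k (ky G z H S).1 (ky G z H S).2 := by
  set J := (la z S).image (ph G H) with hJ
  have hky : ky G z H S = (sm z S, J) := rfl
  rw [hky]
  have f2 : J.card = (la z S).card := Finset.card_image_of_injOn hi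
  have f4 : Hc G (∏ p ∈ S, p) ↔ Hc G ((∏ p ∈ sm z S, p) * ∏ e ∈ J, e.2) :=
    hc_prod hok z S hi hJ
  have f8 : ∏ e ∈ J, XX H e.1 = ∏ p ∈ la z S, XX H (jj H p) := by
    rw [hJ, Finset.prod_image hi]
    rfl
  have f9 : Set.InjOn (jj H) (la z S : Set ℕ) ↔ Set.InjOn Prod.fst (J : Set (ℕ × ℕ)) := by
    constructor
    · intro h a ha b hb hab
      rw [Finset.mem_coe, hJ, Finset.mem_image] at ha hb
      obtain ⟨p, hp, rfl⟩ := ha
      obtain ⟨q, hq, rfl⟩ := hb
      rw [h (Finset.mem_coe.2 hp) (Finset.mem_coe.2 hq) hab]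
    · intro h p hp q hq hpq
      exact hi hp hq (h (Finset.mem_coe.2 (Finset.mem_image_of_mem _ (Finset.mem_coe.1 hp)))
        (Finset.mem_coe.2 (Finset.mem_image_of_mem _ (Finset.mem_coe.1 hq))) hpq)
  have hsm : sm z S ⊆ S := Finset.filter_subset _ _
  have hla : la z S ⊆ S := Finset.filter_subset _ _
  constructor
  · intro h
    unfold RE at h
    rw [Finset.mem_filter] at h
    obtain ⟨h1, h2, h3, h4⟩ := h
    unfold SS at h1
    rw [Finset.mem_filter] at h1
    obtain ⟨-, ⟨h6, h7⟩, h10⟩ := h1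
    refine ⟨fun q hq => h6 q (hsm hq), fun q hq => (Finset.mem_filter.1 hq).2, f4.1 h7,
      f9.1 h2, ?_, ?_⟩
    · rw [f2, sm_la_card]
      exact h3
    · rw [f8]
      exact h4
  · rintro ⟨k1, k2, k4, k7, k8, k9⟩
    have hprod : ∏ p ∈ S, p ≤ X := by
      rw [← sm_la_prod z S]
      refine le_trans (Nat.mul_le_mul_left _ ?_) k9
      rw [f8]
      refine Finset.prod_le_prod' fun p hp => le_XX hH (cl_prime (hS p (hla hp))).one_le
    unfold RE SS
    rw [Finset.mem_filter, Finset.mem_filter, Finset.mem_powerset]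
    refine ⟨⟨?_, ⟨hS, f4.2 k4⟩, hprod⟩, f9.2 k7, ?_, ?_⟩
    · intro q hq
      rw [Finset.mem_range]
      have h1 : q ∣ ∏ p ∈ S, p := Finset.dvd_prod_of_mem _ hq
      have h2 : 0 < ∏ p ∈ S, p := Finset.prod_pos fun p hp => (cl_prime (hS p hp)).pos
      have := Nat.le_of_dvd h2 h1
      omega
    · rw [← sm_la_card z S, ← f2]
      exact k8
    · rw [← f8]
      exact k9

theorem re_facts {G : Cfg} {X z H k : ℕ} {S : Finset ℕ} (hS : S ∈ RE G X z H k) :
    (∀ q ∈ S, Sp G q ∨ In G q) ∧ Set.InjOn (jj H) (la z S : Set ℕ) ∧ ∏ p ∈ S, p ≤ X := by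
  unfold RE SS at hS
  rw [Finset.mem_filter, Finset.mem_filter] at hS
  exact ⟨hS.1.2.1.1, hS.2.1, hS.1.2.2⟩

/-- the sum over the sets with a key is the sum over the box -/
theorem key_sum {G : Cfg} (hok : Ok G) {X z H k : ℕ} (hH : 1 ≤ H) {S₀ : Finset ℕ}
    {J : Finset (ℕ × ℕ)} (hkey : KP G X z H k S₀ J) (F : Finset ℕ → ℝ) [DecidableEq J] :
    ∑ p ∈ Fintype.piFinset (fun i : J => CC G z H i), F (S₀ ∪ univ.image p) =
      ∑ S ∈ (RE G X z H k).filter (fun S => ky G z H S = (S₀, J)), F S := by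
  have h₀ := hkey.le
  apply Finset.sum_bij (fun (p : J → ℕ) _ => S₀ ∪ univ.image p)
  · intro p hp
    rw [Fintype.mem_piFinset] at hp
    have hk := ky_fill hH h₀ hp
    rw [Finset.mem_filter]
    refine ⟨?_, hk⟩
    rw [re_iff hok hH _ (inj_fill hH h₀ hp), hk]
    · exact hkey
    · intro q hq
      rw [Finset.mem_union, Finset.mem_image] at hq
      rcases hq with hq | ⟨i, -, rfl⟩
      · exact hkey.cl q hq
      · exact ((mem_CC hH).1 (hp i)).1
  · intro p hp p' hp' h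
    rw [Fintype.mem_piFinset] at hp hp'
    have h1 := la_fill hH h₀ hp
    rw [h, la_fill hH h₀ hp'] at h1
    funext i
    have h2 : p i ∈ univ.image p' := by
      rw [h1]
      exact Finset.mem_image_of_mem _ (Finset.mem_univ _)
    rw [Finset.mem_image] at h2
    obtain ⟨j, -, hj⟩ := h2
    have h3 := ph_fill hH hp i
    have h4 := ph_fill hH hp' j
    rw [hj, h3] at h4
    rw [← hj, Subtype.ext h4]
  · intro S hS
    rw [Finset.mem_filter] at hS
    obtain ⟨hSR, hSk⟩ := hS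
    obtain ⟨hSO, hSI, -⟩ := re_facts hSR
    have hk1 : sm z S = S₀ := congrArg Prod.fst hSk
    have hk2 : (la z S).image (ph G H) = J := congrArg Prod.snd hSk
    have hex : ∀ i : J, ∃ q ∈ la z S, ph G H q = i := by
      rintro ⟨i, hi⟩
      rw [← hk2, Finset.mem_image] at hi
      exact hi
    choose p hp1 hp2 using hex
    have him : univ.image p = la z S := by
      ext q
      rw [Finset.mem_image]
      constructor
      · rintro ⟨i, -, rfl⟩
        exact hp1 i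
      · intro hq
        have hjq : ph G H q ∈ J := by
          rw [← hk2]
          exact Finset.mem_image_of_mem _ hq
        exact ⟨⟨ph G H q, hjq⟩, Finset.mem_univ _, inj_ph hSI (Finset.mem_coe.2 (hp1 _))
          (Finset.mem_coe.2 hq) (hp2 ⟨ph G H q, hjq⟩)⟩
    have hSe : S₀ ∪ univ.image p = S := by
      rw [him, ← hk1]
      unfold sm la
      exact Finset.filter_union_filter_not_eq _ _
    refine ⟨p, ?_, hSe⟩
    rw [Fintype.mem_piFinset]
    exact fun i => (mem_CC hH).2 ⟨hSO _ (Finset.mem_filter.1 (hp1 i)).1,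
      not_le.1 (Finset.mem_filter.1 (hp1 i)).2, hp2 i⟩
  · intro p hp
    rfl

theorem box_dec (hBOX : S_BOX) (hEQ : S_EQ) (hLA : S_LA) {G : Cfg} (f : ℕ → ZMod 2) (r : ℕ)
    (ι : Type) [Fintype ι]
    [inst : DecidableEq ι] (lo : LinearOrder ι) (J1 : Finset ι)
    (C : ι → Finset ℕ) (X : ι → ℕ) (κ : ℝ) (S₀ : Finset ℕ) (h1 : 0 ≤ κ)
    (h2 : ∀ i, (C i).card ≤ X i) (h3 : HB J1 C X κ) (h4 : ∀ u ∈ S₀, u.Prime ∧ u ≠ 2)
    (h5 : ∀ i, ∀ p ∈ C i, p.Prime ∧ p ≠ 2 ∧ p ∉ S₀ ∧ (i ∈ J1 ↔ Hc G p))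
    (h6 : ∀ i l, i ≠ l → Disjoint (C i) (C l)) :
    ∑ p ∈ Fintype.piFinset C, (nk G f (S₀ ∪ univ.image p) : ℝ) ^ r ≤
      Cr r * ∑ p ∈ Fintype.piFinset C, wt G r S₀ (univ.image p) +
      2 ^ ((2 * S₀.card + 1) * Fintype.card ι + (prs J1).card +
        r * (S₀.card + Fintype.card ι)) * (κ * ∏ j, (X j : ℝ)) := by
  have h := hBOX hEQ hLA G f r ι J1 C X κ S₀ h1 h2 h3 h4 h5 h6
  have e : inst = fun a b => lo.toDecidableEq a b := Subsingleton.elim _ _
  subst e
  exact h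

theorem per_key (hBOX : S_BOX) (hEQ : S_EQ) (hLA : S_LA) (f : ℕ → ZMod 2) (r : ℕ) {G : Cfg}
    (hok : Ok G) {X z H k : ℕ} (hH : 1 ≤ H)
    {κ : ℝ} (hκ : 0 ≤ κ) {S₀ : Finset ℕ} {J : Finset (ℕ × ℕ)} (hk : KP G X z H k S₀ J)
    (hHB : HB (univ.filter fun e : J => Hc G e.1.2) (fun i : J => CC G z H i)
      (fun i => XX H i.1.1) κ) :
    ∑ S ∈ (RE G X z H k).filter (fun S => ky G z H S = (S₀, J)), (nk G f S : ℝ) ^ r ≤
    Cr r * ∑ S ∈ (RE G X z H k).filter (fun S => ky G z H S = (S₀, J)),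
        wt G r (sm z S) (la z S) +
      (2 ^ ((r + 5) * k ^ 2) * κ) * (X / ((∏ p ∈ S₀, p : ℕ) : ℝ)) := by
  set J1 : Finset J := univ.filter fun e : J => Hc G e.1.2 with hJ1
  have hinj : Function.Injective (fun i : J => i.1.1) := by
    intro a b hab
    exact Subtype.ext (hk.inj (Finset.mem_coe.2 a.2) (Finset.mem_coe.2 b.2) hab)
  let lo : LinearOrder J := LinearOrder.lift' (fun i : J => i.1.1) hinj
  have hbox := box_dec hBOX hEQ hLA (G := G) f r J lo J1 (fun i => CC G z H i)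
    (fun i => XX H i.1.1) κ S₀ hκ
    (fun i => by
      refine (Finset.card_filter_le _ _).trans ?_
      rw [Nat.card_Icc]
      omega)
    hHB (fun u hu => ⟨cl_prime (hk.cl u hu), cl_ne hok (hk.cl u hu)⟩)
    (fun i p hp => by
      obtain ⟨h3, h3', h4, h5⟩ := CC_facts hH hp
      refine ⟨cl_prime h3, cl_ne hok h3, fun h => ?_, ?_⟩
      · have := hk.le p h
        omega
      · rw [hJ1, Finset.mem_filter, ← h5, hc_mod hok]
        simp)
    (fun i l hil => CC_disj hH i l hil)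
  have e1 := key_sum hok hH hk (fun S => (nk G f S : ℝ) ^ r)
  have e2 : ∑ p ∈ Fintype.piFinset (fun i : J => CC G z H i), wt G r S₀ (univ.image p) =
      ∑ S ∈ (RE G X z H k).filter (fun S => ky G z H S = (S₀, J)),
        wt G r (sm z S) (la z S) := by
    rw [← key_sum hok hH hk (fun S => wt G r (sm z S) (la z S))]
    refine Finset.sum_congr rfl fun p hp => ?_
    rw [Fintype.mem_piFinset] at hp
    rw [sm_fill hH hk.le hp, la_fill hH hk.le hp]
  rw [e1, e2] at hbox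
  refine hbox.trans (add_le_add le_rfl ?_)
  have hcJ : Fintype.card J = J.card := Fintype.card_coe J
  have hcard := hk.card
  have hJK : J.card ≤ k := by omega
  have hSK : S₀.card ≤ k := by omega
  obtain ⟨m, hm⟩ : ∃ m : ℕ, m = (@prs J _ lo J1).card := ⟨_, rfl⟩
  have hpr : m ≤ k * k := by
    rw [hm]
    refine (@prs_card J _ lo J1).trans ?_
    rw [hcJ]
    exact Nat.mul_le_mul hJK hJK
  rw [← hm]
  have h5 : (2 : ℝ) ^ ((2 * S₀.card + 1) * Fintype.card J + m + r * (S₀.card + Fintype.card J)) ≤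
      2 ^ ((r + 5) * k ^ 2) := by
    refine pow_le_pow_right₀ (by norm_num) ?_
    rw [hcJ]
    have h6 : S₀.card * J.card ≤ k * k := Nat.mul_le_mul hSK hJK
    have h7 : k ≤ k * k := Nat.le_mul_self k
    have h8 : r * (S₀.card + J.card) ≤ r * (k * k) := Nat.mul_le_mul_left r (hcard.trans h7)
    calc (2 * S₀.card + 1) * J.card + m + r * (S₀.card + J.card) =
          2 * (S₀.card * J.card) + J.card + m + r * (S₀.card + J.card) := by ring
      _ ≤ 2 * (k * k) + k * k + k * k + r * (k * k) := by omega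
      _ ≤ (r + 5) * k ^ 2 := by nlinarith
  have hN0 : (0 : ℝ) < ((∏ p ∈ S₀, p : ℕ) : ℝ) := by
    exact_mod_cast Finset.prod_pos fun p hp => (cl_prime (hk.cl p hp)).pos
  have hprod : ∏ j : J, (XX H j.1.1 : ℝ) ≤ X / ((∏ p ∈ S₀, p : ℕ) : ℝ) := by
    have h5 : ∏ j : J, (XX H j.1.1 : ℝ) = ((∏ k ∈ J, XX H k.1 : ℕ) : ℝ) := by
      rw [← Finset.prod_coe_sort J (fun k => XX H k.1)]
      push_cast
      rfl
    rw [h5, le_div_iff₀ hN0, mul_comm]
    exact_mod_cast hk.prod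
  calc (2 : ℝ) ^ ((2 * S₀.card + 1) * Fintype.card J + m + r * (S₀.card + Fintype.card J)) *
      (κ * ∏ j : J, (XX H j.1.1 : ℝ)) ≤
      2 ^ ((r + 5) * k ^ 2) * (κ * (X / ((∏ p ∈ S₀, p : ℕ) : ℝ))) := by gcongr
    _ = _ := by ring

/-- **GX-KEY.** -/
theorem t_KEY : S_KEY := by
  intro hB1 hEQ hLA hBOX
  obtain ⟨C₁, hC₁, h1⟩ := hB1
  refine ⟨C₁, hC₁, ?_⟩
  intro G f r X z H k N κ hok hX hH hz hκ hκz hN
  set T := (RE G X z H k).image (ky G z H) with hT
  set B : ℝ := 2 ^ ((r + 5) * k ^ 2) * κ with hB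
  have hB0 : 0 ≤ B := by positivity
  have hfib : ∀ F : Finset ℕ → ℝ, ∑ S ∈ RE G X z H k, F S =
      ∑ e ∈ T, ∑ S ∈ (RE G X z H k).filter (fun S => ky G z H S = e), F S := by
    intro F
    rw [← Finset.sum_fiberwise_of_maps_to (g := ky G z H) (t := T) (by
      intro S hS
      exact Finset.mem_image_of_mem _ hS)]
  have hKP : ∀ e ∈ T, KP G X z H k e.1 e.2 := by
    intro e he
    rw [hT, Finset.mem_image] at he
    obtain ⟨S, hS, rfl⟩ := he
    obtain ⟨f1, f2, f3⟩ := re_facts hS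
    exact (re_iff hok hH f1 (inj_ph f2)).1 hS
  rw [hfib fun S => (nk G f S : ℝ) ^ r, hfib fun S => wt G r (sm z S) (la z S), Finset.mul_sum]
  have h3 : ∀ e ∈ T, ∑ S ∈ (RE G X z H k).filter (fun S => ky G z H S = e),
        (nk G f S : ℝ) ^ r ≤
      Cr r * ∑ S ∈ (RE G X z H k).filter (fun S => ky G z H S = e), wt G r (sm z S) (la z S) +
      B * (X / ((∏ p ∈ e.1, p : ℕ) : ℝ)) := by
    intro e he
    obtain ⟨S₀, J⟩ := e
    have hk' := hKP _ he
    exact per_key hBOX hEQ hLA f r hok hH hκ hk' (hb_box hok h1 hH hz hκ hκz)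
  refine (Finset.sum_le_sum h3).trans ?_
  rw [Finset.sum_add_distrib]
  refine add_le_add le_rfl ?_
  have hsub : T ⊆ (TT X) ×ˢ ((range N ×ˢ range G.Q).powerset.filter fun J => J.card ≤ k) := by
    intro e he
    have hk' := hKP e he
    rw [hT, Finset.mem_image] at he
    obtain ⟨S, hS, rfl⟩ := he
    obtain ⟨f1, f2, f3⟩ := re_facts hS
    rw [Finset.mem_product, Finset.mem_filter, Finset.mem_powerset]
    refine ⟨mem_TT (fun q hq => cl_prime (hk'.cl q hq)) ?_, ?_, ?_⟩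
    · refine le_trans ?_ f3
      exact Nat.le_of_dvd (Finset.prod_pos fun p hp => (cl_prime (f1 p hp)).pos)
        (Finset.prod_dvd_prod_of_subset _ _ _ (Finset.filter_subset _ _))
    · intro e he
      unfold ky at he
      rw [Finset.mem_image] at he
      obtain ⟨q, hq, rfl⟩ := he
      have hqS := (Finset.mem_filter.1 hq).1
      have hq0 := (cl_prime (f1 q hqS)).pos
      have hqX : q ≤ X := by
        refine le_trans ?_ f3
        exact Nat.le_of_dvd (Finset.prod_pos fun p hp => (cl_prime (f1 p hp)).pos)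
          (Finset.dvd_prod_of_mem _ hqS)
      unfold ph
      rw [Finset.mem_product, Finset.mem_range, Finset.mem_range]
      refine ⟨?_, Nat.mod_lt _ hok.q0⟩
      have h3 : ((jj H q : ℕ) : ℝ) < N := by
        refine lt_of_le_of_lt (Nat.floor_le (mul_nonneg (Nat.cast_nonneg _)
          (Real.log_nonneg (by exact_mod_cast hq0)))) ?_
        refine lt_of_le_of_lt ?_ hN
        refine mul_le_mul_of_nonneg_left ?_ (Nat.cast_nonneg _)
        exact Real.log_le_log (by exact_mod_cast hq0) (by exact_mod_cast hqX)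
      exact_mod_cast h3
    · have := hk'.card
      omega
  refine (Finset.sum_le_sum_of_subset_of_nonneg hsub fun _ _ _ => by positivity).trans ?_
  rw [Finset.sum_product]
  simp only [Finset.sum_const, nsmul_eq_mul]
  rw [← Finset.mul_sum]
  have h4 : ((((range N ×ˢ range G.Q).powerset.filter fun J => J.card ≤ k).card : ℕ) : ℝ) ≤
      (((G.Q : ℝ) + 1) * (N + 1)) ^ k := by
    have h5 := card_sub (range N ×ˢ range G.Q) k
    rw [Finset.card_product, Finset.card_range, Finset.card_range] at h5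
    calc ((((range N ×ˢ range G.Q).powerset.filter fun J => J.card ≤ k).card : ℕ) : ℝ) ≤
          (((N * G.Q + 1) ^ k : ℕ) : ℝ) := by exact_mod_cast h5
      _ = ((N : ℝ) * G.Q + 1) ^ k := by push_cast; ring
      _ ≤ _ := by
        apply pow_le_pow_left₀ (by positivity)
        have h6 : (0 : ℝ) ≤ N := Nat.cast_nonneg _
        have h7 : (0 : ℝ) ≤ G.Q := Nat.cast_nonneg _
        nlinarith
  have h5 : ∑ S ∈ TT X, B * (X / ((∏ p ∈ S, p : ℕ) : ℝ)) ≤ B * (X * (1 + Real.log X)) := by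
    have h6 : ∀ S ∈ TT X, B * ((X : ℝ) / ((∏ p ∈ S, p : ℕ) : ℝ)) =
        B * X * (1 / ((∏ p ∈ S, p : ℕ) : ℝ)) := by
      intro S _
      ring
    rw [Finset.sum_congr rfl h6, ← Finset.mul_sum]
    have h7 := mul_le_mul_of_nonneg_left (harm_TT X) (mul_nonneg hB0 (Nat.cast_nonneg X))
    refine h7.trans (le_of_eq ?_)
    ring
  have h6 : 0 ≤ ∑ S ∈ TT X, B * ((X : ℝ) / ((∏ p ∈ S, p : ℕ) : ℝ)) :=
    Finset.sum_nonneg fun _ _ => by positivity
  rw [mul_assoc]
  gcongr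

end Pool.Agent.U411.GX
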